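import Pool.Agent.MP_75da70_an.H8.PDefs

/-
Sums of the modules `C(U i)` over a family of clopen sets of bounded order.
-/

namespace Pool.Agent.MP_75da70_an.H8

open Filter Topology Set H7

section Generic

variable {Z G Λ : Type} [NormedAddCommGroup Z] [NormedSpace ℂ Z] [NormedAddCommGroup G]
  [NormedSpace ℂ G] {p : Λ → Z →L[ℂ] Z}

theorem P_ext (h : ∀ z, Tendsto (fun S : Finset Λ => ∑ v ∈ S, p v z) atTop (𝓝 z))
    {φ ψ : Z →L[ℂ] G} (H : ∀ v z, φ (p v z) = ψ (p v z)) : φ = ψ := by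
  ext z
  refine tendsto_nhds_unique ((φ.continuous.tendsto z).comp (h z))
    (((ψ.continuous.tendsto z).comp (h z)).congr fun S => ?_)
  simp [H]

theorem P_exists_sum [CompleteSpace G]
    (h : ∀ z, Tendsto (fun S : Finset Λ => ∑ v ∈ S, p v z) atTop (𝓝 z)) (L : Λ → Z →L[ℂ] G)
    (C : ℝ) (hb : ∀ (S : Finset Λ) z, ‖∑ v ∈ S, L v z‖ ≤ C * ‖z‖)
    (ho : ∀ v w z, w ≠ v → L w (p v z) = 0) :
    ∃ T : Z →L[ℂ] G, ∀ v z, T (p v z) = L v (p v z) := by
  classical
  let q : (Λ →₀ Z) →ₗ[ℂ] Z := Finsupp.lsum ℂ fun v => (p v).toLinearMap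
  let f : (Λ →₀ Z) →ₗ[ℂ] G := Finsupp.lsum ℂ fun v => ((L v).comp (p v)).toLinearMap
  have hd : DenseRange q := fun z => by
    refine mem_closure_of_tendsto (h z) (Eventually.of_forall fun S => ⟨∑ v ∈ S, .single v z, ?_⟩)
    simp [q]
  have hn : ∀ x, ‖f x‖ ≤ C * ‖q x‖ := fun x => by
    have : f x = ∑ v ∈ x.support, L v (q x) := by
      simp only [f, q, Finsupp.coe_lsum, Finsupp.sum, map_sum, ContinuousLinearMap.coe_coe,
        ContinuousLinearMap.comp_apply]
      refine Finset.sum_congr rfl fun v hv => ?_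
      rw [Finset.sum_eq_single_of_mem v hv fun w _ hw => ho w v _ hw.symm]
    rw [this]; exact hb _ _
  refine ⟨f.extendOfNorm q, fun v z => ?_⟩
  have := LinearMap.extendOfNorm_eq hd ⟨C, hn⟩ (.single v z)
  simpa [q, f] using this

end Generic

section Trunc

variable {I E : Type} [NormedAddCommGroup E]

open Classical in
theorem P_sum_single (S : Finset I) (f : I → E) (k : I) :
    (∑ i ∈ S, Linf.single i (f i)) k = if k ∈ S then f k else 0 := by
  rw [Linf.sum_val]
  split_ifs with h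
  · rw [Finset.sum_eq_single_of_mem k h fun i _ hi => Linf.single_ne hi.symm _, Linf.single_self]
  · exact Finset.sum_eq_zero fun i hi => Linf.single_ne (by rintro rfl; exact h hi) _

theorem P_norm_sum_single (S : Finset I) (f : I → E) {C : ℝ} (h0 : 0 ≤ C) (h : ∀ i, ‖f i‖ ≤ C) :
    ‖∑ i ∈ S, Linf.single i (f i)‖ ≤ C :=
  Linf.norm_le h0 fun k => by
    rw [P_sum_single]
    split_ifs
    exacts [h k, by simpa using h0]

variable [NormedSpace ℂ E]

theorem P_finite {u : Linf I E} (hu : u ∈ c0S I E) {η : ℝ} (hη : 0 < η) :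
    {i | η ≤ ‖u i‖}.Finite := by
  have := Metric.tendsto_nhds.mp (mem_c0S.mp hu) η hη
  simpa [eventually_cofinite] using this

/-- a family that tends to zero is the limit of its truncations. -/
theorem P_trunc {u : Linf I E} (hu : u ∈ c0S I E) :
    Tendsto (fun S : Finset I => ∑ i ∈ S, Linf.single i (u i)) atTop (𝓝 u) := by
  classical
  refine Metric.tendsto_atTop.mpr fun ε hε => ?_
  have hf := P_finite hu (half_pos hε)
  refine ⟨hf.toFinset, fun S hS => ?_⟩
  rw [dist_eq_norm]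
  refine (Linf.norm_le (half_pos hε).le fun k => ?_).trans_lt (half_lt_self hε)
  rw [Linf.sub_val, P_sum_single]
  split_ifs with h
  · rw [sub_self, norm_zero]
    exact (half_pos hε).le
  · rw [zero_sub, norm_neg]
    exact le_of_not_ge fun h' => h (hS (hf.mem_toFinset.mpr h'))

theorem P_single_mem (i : I) (e : E) : Linf.single i e ∈ c0S I E := by
  refine mem_c0S.mpr (tendsto_const_nhds.congr' ?_)
  filter_upwards [(finite_singleton i).compl_mem_cofinite] with k hk
  rw [Linf.single_ne hk]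

theorem P_smul_single (c : ℂ) (i : I) (e : E) : c • Linf.single i e = Linf.single i (c • e) :=
  Linf.ext fun k => by
    by_cases h : k = i
    · subst h; simp
    · simp [Linf.single_ne h]

end Trunc

variable {Ω : Type} [TopologicalSpace Ω] [CompactSpace Ω]

theorem c0_cont {I : Type} {u : Linf I C(Ω, ℂ)} (hu : u ∈ c0S I C(Ω, ℂ)) (q : Ω) {η : ℝ}
    (hη : 0 < η) : ∀ᶠ x in 𝓝 q, ∀ i, ‖u i x - u i q‖ ≤ η := by
  have hf := P_finite hu (half_pos hη)
  have h1 : ∀ᶠ x in 𝓝 q, ∀ i ∈ {i | η / 2 ≤ ‖u i‖}, ‖u i x - u i q‖ ≤ η :=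
    (eventually_all_finite hf).mpr fun i _ => by
      filter_upwards [Metric.tendsto_nhds.mp ((u i).continuous.tendsto q) η hη] with x hx
      rw [dist_eq_norm] at hx
      exact hx.le
  filter_upwards [h1] with x hx i
  by_cases h : η / 2 ≤ ‖u i‖
  · exact hx i h
  · have a := (u i).norm_coe_le_norm x
    have b := (u i).norm_coe_le_norm q
    have c := norm_sub_le (u i x) (u i q)
    linarith [not_le.mp h]

section PM

variable {I : Type} {U : I → Set Ω} {N : ℕ}

omit [CompactSpace Ω] in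
theorem P_mul_ind {S : Set Ω} (h : IsClopen S) {f : C(Ω, ℂ)} (hf : ∀ x, x ∉ S → f x = 0) :
    f * ind S = f := by
  ext x
  by_cases hx : x ∈ S
  · simp [ind_of_mem h hx]
  · simp [hf x hx]

theorem P_op_eP (a : C(Ω, ℂ)) (i : I) :
    ((PM U).op a (eP U i) : Linf I C(Ω, ℂ)) = Linf.single i (a * ind (U i)) :=
  Linf.ext fun k => by
    change a * Linf.single i (ind (U i)) k = _
    by_cases h : k = i
    · subst h; simp
    · simp [Linf.single_ne h]

theorem P_ind_eP (h : CF U N) (i : I) : (PM U).op (ind (U i)) (eP U i) = eP U i :=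
  Subtype.ext (by rw [P_op_eP, P_mul_ind (h.clopen i) fun x => ind_of_notMem]; rfl)

/-- the projection to a summand. -/
noncomputable def P_proj (U : I → Set Ω) (i : I) : (PM U).carrier →L[ℂ] (PM U).carrier :=
  ((PM U).op.flip (eP U i)).comp ((lpEv i).comp (pmS U).subtypeL)

theorem P_proj_apply (i : I) (u : (PM U).carrier) :
    P_proj U i u = (PM U).op (u.1 i) (eP U i) := rfl

theorem P_proj_tendsto (h : CF U N) (u : (PM U).carrier) :
    Tendsto (fun S : Finset I => ∑ i ∈ S, P_proj U i u) atTop (𝓝 u) := by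
  rw [tendsto_subtype_rng]
  refine (P_trunc u.2.1).congr fun S => ?_
  rw [Submodule.coe_sum]
  refine Finset.sum_congr rfl fun i _ => ?_
  rw [P_proj_apply, P_op_eP, P_mul_ind (h.clopen i) ((mem_pmS.mp u.2).2 i)]

theorem PM.ext (h : CF U N) {G : Type} [NormedAddCommGroup G]
    [NormedSpace ℂ G] (φ ψ : (PM U).carrier →L[ℂ] G)
    (H : ∀ a i, φ ((PM U).op a (eP U i)) = ψ ((PM U).op a (eP U i))) : φ = ψ :=
  P_ext (p := P_proj U) (P_proj_tendsto h) fun i u => by
    rw [P_proj_apply]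
    exact H (u.1 i) i

theorem P_norm_sum (h : CF U N) (f : I → C(Ω, ℂ)) (hf : ∀ i x, x ∉ U i → f i x = 0) {C : ℝ}
    (hC0 : 0 ≤ C) (hC : ∀ i x, ‖f i x‖ ≤ C) (S : Finset I) (θ : I → ℂ) (hθ : ∀ i, ‖θ i‖ ≤ 1) :
    ‖∑ i ∈ S, θ i • f i‖ ≤ N * C := by
  classical
  refine (ContinuousMap.norm_le _ (by positivity)).mpr fun x => ?_
  rw [ContinuousMap.sum_apply, ← Finset.sum_filter_of_ne (p := fun i => x ∈ U i) fun i _ hi => by
    by_contra hx
    exact hi (by simp [hf i x hx])]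
  refine (norm_sum_le _ _).trans ((Finset.sum_le_card_nsmul _ _ C fun i _ => ?_).trans ?_)
  · rw [ContinuousMap.smul_apply, norm_smul]
    exact (mul_le_of_le_one_left (norm_nonneg _) (hθ i)).trans (hC i x)
  · rw [nsmul_eq_mul]
    exact mul_le_mul_of_nonneg_right
      (Nat.cast_le.mpr (h.ord x _ fun i hi => (Finset.mem_filter.mp hi).2)) hC0

theorem PM.lift (h : CF U N) (Y : LM C(Ω, ℂ))
    (y : I → Y.carrier) (hy : ∀ i, Y.op (ind (U i)) (y i) = y i) (C : ℝ)
    (hC : ∀ (S : Finset I) (θ : I → ℂ), (∀ i, ‖θ i‖ ≤ 1) → ‖∑ i ∈ S, θ i • y i‖ ≤ C) :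
    ∃ ψ : (PM U).carrier →L[ℂ] Y.carrier, Mr (PM U) Y ψ ∧ ∀ i, ψ (eP U i) = y i := by
  obtain ⟨T, hT⟩ := P_exists_sum (P_proj_tendsto h)
    (fun i => (Y.op.flip (y i)).comp ((lpEv i).comp (pmS U).subtypeL)) (‖Y.op‖ * N * C)
    (fun S u => by
      refine (norm_sum_bilin Y.op S (fun i => u.1 i) y (P_norm_sum h _ (mem_pmS.mp u.2).2
        (norm_nonneg u) (fun i x => ((u.1 i).norm_coe_le_norm x).trans (u.1.norm_val_le i)) S)
        (hC S)).trans (le_of_eq ?_)
      ring)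
    (fun v w u hw => by
      change Y.op (((PM U).op (u.1 v) (eP U v) : Linf I C(Ω, ℂ)) w) (y w) = 0
      rw [P_op_eP, Linf.single_ne hw, map_zero, zero_apply])
  have key : ∀ a i, T ((PM U).op a (eP U i)) = Y.op a (y i) := fun a i => by
    have e : P_proj U i ((PM U).op a (eP U i)) = (PM U).op a (eP U i) := by
      rw [P_proj_apply, P_op_eP, Linf.single_self, op_mul, P_ind_eP h]
    have := hT i ((PM U).op a (eP U i))
    rw [e] at this
    rw [this]
    change Y.op (((PM U).op a (eP U i) : Linf I C(Ω, ℂ)) i) (y i) = _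
    rw [P_op_eP, Linf.single_self, op_mul, hy]
  refine ⟨T, fun b u => DFunLike.congr_fun (PM.ext h (T.comp ((PM U).op b)) ((Y.op b).comp T)
    fun a i => ?_) u, fun i => by rw [← P_ind_eP h, key, hy]⟩
  rw [ContinuousLinearMap.comp_apply, ContinuousLinearMap.comp_apply, ← op_mul, key, key, op_mul]

theorem P_norm_sum_eP (S : Finset I) (θ : I → ℂ) (hθ : ∀ i, ‖θ i‖ ≤ 1) :
    ‖∑ i ∈ S, θ i • eP U i‖ ≤ 1 := by
  change ‖((∑ i ∈ S, θ i • eP U i : (PM U).carrier) : Linf I C(Ω, ℂ))‖ ≤ 1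
  rw [Submodule.coe_sum]
  have : ∀ i, ((θ i • eP U i : (PM U).carrier) : Linf I C(Ω, ℂ)) =
      Linf.single i (θ i • ind (U i)) := fun i => P_smul_single _ _ _
  simp only [this]
  refine P_norm_sum_single S _ zero_le_one fun i => ?_
  rw [norm_smul]
  exact mul_le_one₀ (hθ i) (norm_nonneg _) (norm_ind_le _)

theorem PM.pj (h : CF U N) : Pj (PM U) := by
  rintro Y X σ hσ ⟨τ, hτ⟩ φ hφ
  obtain ⟨ψ, h1, h2⟩ := PM.lift h Y (fun i => Y.op (ind (U i)) (τ (φ (eP U i))))
    (fun i => by rw [← op_mul, P_mul_ind (h.clopen i) fun x => ind_of_notMem])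
    (‖Y.op‖ * (N * 1) * (‖τ.comp φ‖ * 1)) (fun S θ hθ => by
      have := norm_sum_bilin Y.op S (fun i => θ i • ind (U i)) (fun i => τ (φ (eP U i)))
        (P_norm_sum h _ (fun i x hx => by simp [ind_of_notMem hx]) zero_le_one (fun i x => by
          rw [ContinuousMap.smul_apply, norm_smul]
          exact mul_le_one₀ (hθ i) (norm_nonneg _)
            (((ind (U i)).norm_coe_le_norm x).trans (norm_ind_le _))) S)
        (b := ‖τ.comp φ‖ * 1) fun ε hε => by
          have := (τ.comp φ).le_of_opNorm_le_of_le le_rfl (P_norm_sum_eP (U := U) S ε hε)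
          simpa only [map_sum, map_smul, ContinuousLinearMap.comp_apply] using this
      simpa only [map_smul, smul_apply] using this)
  refine ⟨ψ, h1, DFunLike.congr_fun (PM.ext h (σ.comp ψ) φ fun a i => ?_)⟩
  rw [ContinuousLinearMap.comp_apply, h1, h2, hσ, hσ, hτ, ← hφ, P_ind_eP h, hφ]

/-- signed sums of families with supports of bounded order. -/
theorem norm_sum_le_of_cf {J : Type} (h : CF U N)
    (y : I → Linf J C(Ω, ℂ)) (hy : ∀ i j x, x ∉ U i → y i j x = 0) {C : ℝ} (hC0 : 0 ≤ C)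
    (hC : ∀ i j x, ‖y i j x‖ ≤ C) (S : Finset I) (θ : I → ℂ) (hθ : ∀ i, ‖θ i‖ ≤ 1) :
    ‖∑ i ∈ S, θ i • y i‖ ≤ N * C :=
  Linf.norm_le (by positivity) fun j => by
    rw [Linf.sum_val]
    exact P_norm_sum h (fun i => y i j) (fun i => hy i j) hC0 (fun i => hC i j) S θ hθ

/-- a morphism acts fibre by fibre. -/
theorem PM.fibre {J : Type} (h : CF U N)
    (ψ : (PM U).carrier →L[ℂ] (LF Ω J).carrier) (hψ : Mr (PM U) (LF Ω J) ψ) (u : (PM U).carrier)
    (x : Ω) (S : Finset I) (hS : ∀ i, x ∈ U i → i ∈ S) (j : J) :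
    ψ u j x = ∑ i ∈ S, u.1 i x * ψ (eP U i) j x := by
  have := DFunLike.congr_fun (PM.ext h ((evF j x).comp ψ)
    (∑ i ∈ S, ψ (eP U i) j x • (evF i x).comp (pmS U).subtypeL) fun a k => ?_) u
  · simpa [mul_comm] using this
  have e : ψ (eP U k) j x = ind (U k) x * ψ (eP U k) j x := by
    conv_lhs => rw [← P_ind_eP h, hψ]
    rfl
  rw [ContinuousLinearMap.comp_apply, hψ, sum_apply]
  change a x * ψ (eP U k) j x =
    ∑ i ∈ S, ψ (eP U i) j x * ((PM U).op a (eP U k) : Linf I C(Ω, ℂ)) i x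
  rw [P_op_eP]
  by_cases hk : k ∈ S
  · rw [Finset.sum_eq_single_of_mem k hk fun i _ hi => by simp [Linf.single_ne hi],
      Linf.single_self, ContinuousMap.mul_apply]
    linear_combination a x * e
  · rw [Finset.sum_eq_zero fun i hi => by
      rw [Linf.single_ne (by rintro rfl; exact hk hi)]; simp, e,
      ind_of_notMem fun hx => hk (hS k hx), zero_mul, mul_zero]

end PM

namespace PS

variable (P : PS Ω) (B : Set Ω) (k : ℕ)

omit [CompactSpace Ω] in
theorem P_Sx_mono {q x : Ω} (hq : P.le q x) : Sx P.le B k q ⊆ Sx P.le B k x :=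
  fun _ ⟨h1, h2, a, t, h3, h4⟩ => ⟨h1, h2, a, t, h3, P.pord.trans _ _ _ h4 hq⟩

omit [CompactSpace Ω] in
theorem P_Zf_mono {q x : Ω} (hq : P.le q x) : Zf P.le B k q ≤ Zf P.le B k x := by
  refine inf_le_inf_right _ (Finsupp.supported_mono ?_)
  rintro c ⟨h1, h2⟩
  refine ⟨P.P_Sx_mono B k hq h1, ?_⟩
  rintro rfl
  obtain ⟨-, -, a, t, h3, h4⟩ := h1
  obtain ⟨rfl, -⟩ := List.cons_eq_cons.mp h3
  exact h2 (by rw [P.pord.anti _ _ h4 hq])

omit [CompactSpace Ω] in
theorem cf : CF (P.Uc B k) (P.N ^ (k + 1)) where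
  clopen := fun c => by
    by_cases h : ∃ x, x ∈ P.Uc B k c
    · obtain ⟨x, h1, h2, a, t, rfl, -⟩ := h
      have : P.Uc B k (a :: t) = P.V a := by
        ext y
        refine ⟨?_, fun hy => ⟨h1, h2, a, t, rfl, hy⟩⟩
        rintro ⟨-, -, b, s, h3, h4⟩
        obtain ⟨rfl, -⟩ := List.cons_eq_cons.mp h3
        exact h4
      rw [this]
      exact P.rs.clopen a
    · rw [eq_empty_of_forall_notMem fun x hx => h ⟨x, hx⟩]
      exact isClopen_empty
  ord := fun x S hS => by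
    classical
    let D := (P.finite_below x).toFinset
    have hD : D.card ≤ P.N := P.ord x D fun q hq => (P.finite_below x).mem_toFinset.mp hq
    have h1 : S ⊆ (Fintype.piFinset fun _ : Fin (k + 1) => D).image List.ofFn := fun c hc => by
      obtain ⟨h1, h2, a, t, rfl, h3⟩ := hS c hc
      refine Finset.mem_image.mpr ⟨fun i => (a :: t).get (i.cast h2.symm),
        Fintype.mem_piFinset.mpr fun i => (P.finite_below x).mem_toFinset.mpr
          (IsCh.all_le P h1 h3 _ (List.get_mem _ _)), ?_⟩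
      rw [← List.ofFn_congr h2, List.ofFn_get]
    refine (Finset.card_le_card h1).trans (Finset.card_image_le.trans ?_)
    rw [Fintype.card_piFinset, Finset.prod_const, Finset.card_univ, Fintype.card_fin]
    exact Nat.pow_le_pow_left hD _

/-- the element `1_W ⊗ ζ`. -/
theorem exists_const {q : Ω} {W : Set Ω} (_hW : IsClopen W)
    (hWq : W ⊆ P.V q) (ζ : FL Ω) : ∃ u : Linf (List Ω) C(Ω, ℂ),
      (∀ c x, u c x = ind W x * ζ c) ∧
      (ζ ∈ Finsupp.supported ℂ ℂ (Sx P.le B k q) → u ∈ pmS (P.Uc B k)) ∧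
      (ζ ∈ Zf P.le B k q → u ∈ P.zS B k) := by
  classical
  let u : Linf (List Ω) C(Ω, ℂ) := ∑ c ∈ ζ.support, Linf.single c (ζ c • ind W)
  have h1 : ∀ c x, u c x = ind W x * ζ c := fun c x => by
    rw [P_sum_single]
    split_ifs with h
    · simp [mul_comm]
    · simp [Finsupp.notMem_support_iff.mp h]
  have h0 : ζ ∈ Finsupp.supported ℂ ℂ (Sx P.le B k q) → ∀ c x, c ∉ Sx P.le B k x →
      ind W x * ζ c = 0 := fun h c x hx => by
    by_cases hw : x ∈ W
    · rw [(Finsupp.mem_supported' _ _).mp h c fun hc => hx (P.P_Sx_mono B k (hWq hw) hc),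
        mul_zero]
    · rw [ind_of_notMem hw, zero_mul]
  have h2 : ζ ∈ Finsupp.supported ℂ ℂ (Sx P.le B k q) → u ∈ pmS (P.Uc B k) := fun h =>
    mem_pmS.mpr ⟨mem_c0S.mp (Submodule.sum_mem _ fun c _ => P_single_mem _ _),
      fun c x hx => by rw [h1, h0 h c x hx]⟩
  refine ⟨u, h1, h2, fun h => ?_⟩
  have h3 : ζ ∈ Finsupp.supported ℂ ℂ (Sx P.le B k q) :=
    Finsupp.supported_mono (fun _ hc => hc.1) h.1
  refine P.mem_zS.mpr ⟨h2 h3, fun x => ?_⟩
  have e : P.fib B k x u = ind W x • ζ := by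
    ext c
    rw [P.fib_apply, Finsupp.smul_apply, smul_eq_mul, h1]
    split_ifs with hc
    exacts [rfl, (h0 h3 c x hc).symm]
  rw [e]
  by_cases hw : x ∈ W
  · exact Submodule.smul_mem _ _ (P.P_Zf_mono B k (hWq hw) h)
  · rw [ind_of_notMem hw, zero_smul]
    exact Submodule.zero_mem _

end PS

end Pool.Agent.MP_75da70_an.H8
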