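import Pool.Agent.MP_75da70_an.H72.PMod

/-
The module `C0 B` and its tensor square.
-/

namespace Pool.Agent.MP_75da70_an.H8

open Filter Topology Set H7

variable {Ω : Type} [TopologicalSpace Ω] [CompactSpace Ω]

/-- the point mass at `x`, or zero if `x` is not in `B`. -/
noncomputable def P_del (B : Set Ω) (x : Ω) : (C0 B).carrier :=
  ⟨Linf.single x (B.indicator 1 x), mem_c0B.mpr ⟨mem_c0S.mp (P_single_mem _ _), fun y hy => by
    by_cases h : y = x
    · subst h; rw [Linf.single_self, indicator_of_notMem hy]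
    · exact Linf.single_ne h _⟩⟩

/-- the value at a point. -/
noncomputable def P_ev (B : Set Ω) (x : Ω) : (C0 B).carrier →L[ℂ] ℂ :=
  (lpEv x).comp (c0B B).subtypeL

theorem P_ev_apply (B : Set Ω) (x : Ω) (u : (C0 B).carrier) : P_ev B x u = u.1 x := rfl

theorem P_ev_op (B : Set Ω) (x : Ω) (a : C(Ω, ℂ)) (u : (C0 B).carrier) :
    P_ev B x ((C0 B).op a u) = a x * P_ev B x u := rfl

theorem P_c0_ext {B : Set Ω} {u v : (C0 B).carrier} (h : ∀ x, P_ev B x u = P_ev B x v) : u = v :=
  Subtype.ext (Linf.ext h)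

theorem P_ev_del_ne (B : Set Ω) {x y : Ω} (h : y ≠ x) : P_ev B y (P_del B x) = 0 :=
  Linf.single_ne h _

theorem P_ev_del (B : Set Ω) (x : Ω) : P_ev B x (P_del B x) = B.indicator 1 x :=
  Linf.single_self _ _

theorem P_op_del (B : Set Ω) (x : Ω) (a : C(Ω, ℂ)) :
    (C0 B).op a (P_del B x) = a x • P_del B x :=
  P_c0_ext fun y => by
    rw [P_ev_op, map_smul, smul_eq_mul]
    by_cases h : y = x
    · rw [h]
    · rw [P_ev_del_ne B h, mul_zero, mul_zero]

theorem P_ev_smul_del (B : Set Ω) (x : Ω) : P_ev B x (P_del B x) • P_del B x = P_del B x := by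
  rw [P_ev_del]
  by_cases h : x ∈ B
  · rw [indicator_of_mem h, Pi.one_apply, one_smul]
  · refine P_c0_ext fun y => ?_
    by_cases h' : y = x
    · subst h'; rw [map_smul, P_ev_del, indicator_of_notMem h, smul_zero]
    · rw [map_smul, P_ev_del_ne B h', smul_zero]

theorem P_del_val (B : Set Ω) (x : Ω) (c : ℂ) :
    ((c • P_del B x : (C0 B).carrier) : Linf Ω ℂ) = Linf.single x (c * B.indicator 1 x) :=
  P_smul_single _ _ _

theorem P_del_tendsto (B : Set Ω) (u : (C0 B).carrier) :
    Tendsto (fun S : Finset Ω => ∑ x ∈ S, (P_ev B x).smulRight (P_del B x) u) atTop (𝓝 u) := by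
  rw [tendsto_subtype_rng]
  refine (P_trunc u.2.1).congr fun S => ?_
  rw [Submodule.coe_sum]
  refine Finset.sum_congr rfl fun x _ => ?_
  rw [ContinuousLinearMap.smulRight_apply, P_del_val, P_ev_apply]
  by_cases h : x ∈ B
  · rw [indicator_of_mem h, Pi.one_apply, mul_one]
  · rw [(mem_c0B.mp u.2).2 x h, zero_mul]

theorem P_del_ext {B : Set Ω} {G : Type} [NormedAddCommGroup G] [NormedSpace ℂ G]
    (φ ψ : (C0 B).carrier →L[ℂ] G) (h : ∀ x, φ (P_del B x) = ψ (P_del B x)) (u : (C0 B).carrier) :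
    φ u = ψ u :=
  DFunLike.congr_fun (P_ext (p := fun x => (P_ev B x).smulRight (P_del B x)) (P_del_tendsto B)
    fun x u => by rw [ContinuousLinearMap.smulRight_apply, map_smul, map_smul, h]) u

theorem P_norm_sum_del (B : Set Ω) (S : Finset Ω) (θ : Ω → ℂ) {C : ℝ} (h0 : 0 ≤ C)
    (hθ : ∀ x, ‖θ x‖ ≤ C) : ‖∑ x ∈ S, θ x • P_del B x‖ ≤ C := by
  change ‖((∑ x ∈ S, θ x • P_del B x : (C0 B).carrier) : Linf Ω ℂ)‖ ≤ C
  rw [Submodule.coe_sum, Finset.sum_congr rfl fun x _ => P_del_val B x (θ x)]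
  refine P_norm_sum_single S _ h0 fun x => ?_
  by_cases h : x ∈ B
  · rw [indicator_of_mem h, Pi.one_apply, mul_one]; exact hθ x
  · rw [indicator_of_notMem h, mul_zero, norm_zero]; exact h0

omit [TopologicalSpace Ω] [CompactSpace Ω] in
theorem P_norm_mul (x : Ω) :
    ‖(ContinuousLinearMap.mul ℂ ℂ).comp (lpEv (E := ℂ) x)‖ ≤ 1 :=
  ContinuousLinearMap.opNorm_le_bound₂ _ zero_le_one fun a z => by
    change ‖a x * z‖ ≤ _
    rw [norm_mul, one_mul]
    exact mul_le_mul_of_nonneg_right (a.norm_val_le x) (norm_nonneg _)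

/-- the pointwise product. -/
noncomputable def P_mul (B : Set Ω) : (C0 B).carrier →L[ℂ] (C0 B).carrier →L[ℂ] (C0 B).carrier :=
  (subOp (lpOp _ P_norm_mul) (c0B B) fun a u hu => mem_c0B.mpr
    ⟨mem_c0S.mp (lpOp_mem_c0S _ P_norm_mul a hu.1), fun x hx => by
      change a x * u x = 0
      rw [(mem_c0B.mp hu).2 x hx, mul_zero]⟩).comp (c0B B).subtypeL

instance P_cpl (B : Set Ω) : CompleteSpace (C0 B).carrier := (C0 B).cpl

/-- the product as a map on the tensor square. -/
noncomputable def P_mulT (B : Set Ω) : PT (C0 B).carrier (C0 B).carrier →L[ℂ] (C0 B).carrier :=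
  PT.lift (P_mul B)

theorem P_mulT_tm (B : Set Ω) (u v : (C0 B).carrier) : P_mulT B (tm _ _ u v) = P_mul B u v :=
  PT.lift_tm _ _ _

theorem P_ev_mul (B : Set Ω) (x : Ω) (u v : (C0 B).carrier) :
    P_ev B x (P_mul B u v) = P_ev B x u * P_ev B x v := rfl

theorem P_TB_left (M N : LM C(Ω, ℂ)) (a : C(Ω, ℂ)) (t : (TB M N).carrier) :
    (TB M N).op (a, 0) t = lact _ M.op a t := by simp

theorem P_TB_right (M N : LM C(Ω, ℂ)) (a : C(Ω, ℂ)) (t : (TB M N).carrier) :
    (TB M N).op (0, a) t = ract _ N.op a t := by simp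

theorem P_diag_left (M : LM C(Ω, ℂ)) (a : C(Ω, ℂ)) (t : M.carrier) :
    (diag M).op (a, 0) t = M.op a t := by simp

theorem P_diag_right (M : LM C(Ω, ℂ)) (a : C(Ω, ℂ)) (t : M.carrier) :
    (diag M).op (0, a) t = M.op a t := by simp

/-- `C0 B` with equal actions is a retract of its tensor square. -/
theorem retr_diag_C0 (B : Set Ω) : Retr (diag (C0 B)) (TB (C0 B) (C0 B)) := by
  obtain ⟨T, hT⟩ := P_exists_sum (p := fun x => (P_ev B x).smulRight (P_del B x))
    (P_del_tendsto B) (fun x => (P_ev B x).smulRight (tm _ _ (P_del B x) (P_del B x)))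
    ‖tm (C0 B).carrier (C0 B).carrier‖ (fun S u => by
      have := norm_sum_bilin (tm (C0 B).carrier (C0 B).carrier) S
        (fun x => P_ev B x u • P_del B x) (P_del B) (a := ‖u‖) (b := 1) (fun ε hε => by
          simp only [smul_smul]
          refine P_norm_sum_del B S _ (norm_nonneg u) fun x => ?_
          rw [norm_mul]
          exact (mul_le_of_le_one_left (norm_nonneg _) (hε x)).trans (u.1.norm_val_le x))
        fun ε hε => P_norm_sum_del B S ε zero_le_one hε
      simpa only [map_smul, smul_apply, ContinuousLinearMap.smulRight_apply, mul_one] using this)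
    (fun v w u hw => by
      rw [ContinuousLinearMap.smulRight_apply, ContinuousLinearMap.smulRight_apply, map_smul,
        P_ev_del_ne B hw, smul_zero, zero_smul])
  have key : ∀ x, T (P_del B x) = tm _ _ (P_del B x) (P_del B x) := fun x => by
    have := hT x (P_del B x)
    rw [ContinuousLinearMap.smulRight_apply, P_ev_smul_del, ContinuousLinearMap.smulRight_apply,
      ← smul_apply, ← map_smul, P_ev_smul_del] at this
    exact this
  refine ⟨T, P_mulT B, mr_bi (fun a u => ?_) fun a u => ?_,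
    mr_bi (fun a t => ?_) fun a t => ?_, fun u => ?_⟩
  · rw [P_TB_left, P_diag_left]
    refine P_del_ext (T.comp ((C0 B).op a)) ((lact _ (C0 B).op a).comp T) (fun x => ?_) u
    rw [ContinuousLinearMap.comp_apply, ContinuousLinearMap.comp_apply, P_op_del, map_smul, key,
      lact_tm, P_op_del, map_smul, smul_apply]
  · rw [P_TB_right, P_diag_right]
    refine P_del_ext (T.comp ((C0 B).op a)) ((ract _ (C0 B).op a).comp T) (fun x => ?_) u
    rw [ContinuousLinearMap.comp_apply, ContinuousLinearMap.comp_apply, P_op_del, map_smul, key,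
      ract_tm, P_op_del, map_smul]
  · rw [P_TB_left, P_diag_left]
    refine pt_ext ((P_mulT B).comp (lact _ (C0 B).op a))
      (((C0 B).op a).comp (P_mulT B)) (fun e f => P_c0_ext fun x => ?_) t
    rw [ContinuousLinearMap.comp_apply, ContinuousLinearMap.comp_apply, lact_tm, P_mulT_tm,
      P_mulT_tm, P_ev_op, P_ev_mul, P_ev_mul, P_ev_op, mul_assoc]
  · rw [P_TB_right, P_diag_right]
    refine pt_ext ((P_mulT B).comp (ract _ (C0 B).op a))
      (((C0 B).op a).comp (P_mulT B)) (fun e f => P_c0_ext fun x => ?_) t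
    rw [ContinuousLinearMap.comp_apply, ContinuousLinearMap.comp_apply, ract_tm, P_mulT_tm,
      P_mulT_tm, P_ev_op, P_ev_mul, P_ev_mul, P_ev_op, mul_left_comm]
  · refine P_del_ext ((P_mulT B).comp T) (ContinuousLinearMap.id ℂ _) (fun x => ?_) u
    rw [ContinuousLinearMap.comp_apply, key, P_mulT_tm, ContinuousLinearMap.id_apply]
    refine P_c0_ext fun y => ?_
    rw [P_ev_mul]
    by_cases h : y = x
    · subst h
      rw [← smul_eq_mul, ← map_smul, P_ev_smul_del]
    · rw [P_ev_del_ne B h, mul_zero]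

theorem P_point (p : Ω) (u : (C0 {p}).carrier) : P_ev {p} p u • P_del {p} p = u :=
  P_c0_ext fun y => by
    rw [map_smul]
    by_cases h : y = p
    · subst h
      rw [P_ev_del, indicator_of_mem (mem_singleton y), Pi.one_apply, smul_eq_mul, mul_one]
    · rw [P_ev_del_ne _ h, smul_zero]
      exact ((mem_c0B.mp u.2).2 y h).symm

theorem retr_point {B : Set Ω} {p : Ω} (hp : p ∈ B) :
    Retr (TB (C0 {p}) (C0 {p})) (diag (C0 B)) := by
  let i : PT (C0 {p}).carrier (C0 {p}).carrier →L[ℂ] (C0 B).carrier :=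
    PT.lift ((P_ev {p} p).smulRight ((P_ev {p} p).smulRight (P_del B p)))
  have hi : ∀ e f, i (tm _ _ e f) = P_ev {p} p e • P_ev {p} p f • P_del B p := fun e f =>
    PT.lift_tm _ _ _
  let π : (C0 B).carrier →L[ℂ] PT (C0 {p}).carrier (C0 {p}).carrier :=
    (P_ev B p).smulRight (tm _ _ (P_del {p} p) (P_del {p} p))
  have hπ : ∀ u, π u = P_ev B p u • tm _ _ (P_del {p} p) (P_del {p} p) := fun _ => rfl
  refine ⟨i, π, mr_bi (fun a t => ?_) fun a t => ?_, mr_bi (fun a u => ?_) fun a u => ?_,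
    fun t => ?_⟩
  · rw [P_TB_left, P_diag_left]
    refine pt_ext (i.comp (lact _ (C0 {p}).op a)) (((C0 B).op a).comp i) (fun e f => ?_) t
    rw [ContinuousLinearMap.comp_apply, ContinuousLinearMap.comp_apply, lact_tm, hi, hi, map_smul,
      map_smul, P_op_del, P_ev_op, smul_smul, smul_smul, smul_smul]
    congr 1
    ring
  · rw [P_TB_right, P_diag_right]
    refine pt_ext (i.comp (ract _ (C0 {p}).op a)) (((C0 B).op a).comp i) (fun e f => ?_) t
    rw [ContinuousLinearMap.comp_apply, ContinuousLinearMap.comp_apply, ract_tm, hi, hi, map_smul,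
      map_smul, P_op_del, P_ev_op, smul_smul, smul_smul, smul_smul]
    congr 1
    ring
  · rw [P_TB_left, P_diag_left, hπ, hπ, map_smul, lact_tm, P_op_del, map_smul, smul_apply,
      P_ev_op, smul_smul, mul_comm]
  · rw [P_TB_right, P_diag_right, hπ, hπ, map_smul, ract_tm, P_op_del, map_smul,
      P_ev_op, smul_smul, mul_comm]
  · refine pt_ext (π.comp i) (ContinuousLinearMap.id ℂ _) (fun e f => ?_) t
    rw [ContinuousLinearMap.comp_apply, hi, map_smul, map_smul, hπ, P_ev_del, indicator_of_mem hp,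
      Pi.one_apply, one_smul, ← map_smul, P_point, ← smul_apply, ← map_smul, P_point,
      ContinuousLinearMap.id_apply]

end Pool.Agent.MP_75da70_an.H8
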